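import Pool.Agent.H9.TE.Main

/-!
# The Graham–Häggkvist conjecture for large degrees

The conjecture says that a tree `T` with `m` edges decomposes every `2 m`-regular graph and every
bipartite `m`-regular graph. By the theorems of Petersen and König it would follow that `T`
decomposes every `2 m k`-regular graph and every bipartite `m k`-regular graph. This consequence is
proved here for all `k` above an explicit polynomial bound in `m`, and the graphs need not be
regular: it is enough that all degrees are large and divisible by `2 m` (by `m` in the bipartite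
case).
-/

set_option autoImplicit false

namespace Pool.Agent.Results.MP_c367c1_co.LargeDegrees

/-- Let `T` be a tree with `m` edges and `G` a finite simple graph such that every vertex of
positive degree has degree at least `10 ^ 7 * m ^ 5 * (⌊log₂ m⌋ + 1)`. If all degrees of `G` are
divisible by `2 m`, or if `G` is bipartite and all its degrees are divisible by `m`, then the edges
of `G` split into edge-disjoint subgraphs isomorphic to `T`. -/
theorem result {W : Type} [Fintype W] (T : SimpleGraph W) (hT : T.IsTree) (m : ℕ)
    (hm : T.edgeSet.ncard = m) {V : Type} [Fintype V] (G : SimpleGraph V) [DecidableRel G.Adj]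
    (hbig : ∀ v, G.degree v = 0 ∨ 10 ^ 7 * m ^ 5 * (Nat.log 2 m + 1) ≤ G.degree v)
    (hdiv : (∀ v, 2 * m ∣ G.degree v) ∨ (G.Colorable 2 ∧ ∀ v, m ∣ G.degree v)) :
    ∃ (k : ℕ) (H : Fin k → G.Subgraph),
      (∀ i, Nonempty (T ≃g (H i).coe)) ∧ ∀ e ∈ G.edgeSet, ∃! i, e ∈ (H i).edgeSet :=
  Pool.Agent.H9.TE.core T hT m hm G hbig hdiv

end Pool.Agent.Results.MP_c367c1_co.LargeDegrees
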